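import Mathlib
import Pool.Agent.H.MP_b9b9c0_an.C

namespace Pool.Agent.Results.MP_b9b9c0_an.P2

open Complex Metric Set Filter MeasureTheory

/-- Euclidean `ℂ^n`. -/
abbrev E (n : ℕ) := EuclideanSpace ℂ (Fin n)

/-- The class `N_A`. -/
def N {n : ℕ} (A : E n →L[ℂ] E n) : Set (E n → E n) :=
  {h | DifferentiableOn ℂ h (ball 0 1) ∧ h 0 = 0 ∧ fderiv ℂ h 0 = A ∧
    ∀ z ∈ ball (0 : E n) 1, z ≠ 0 → 0 < (inner ℂ z (h z)).re}

/-- The normalized maps with `A`-parametric representation. -/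
def S0 {n : ℕ} (A : E n →L[ℂ] E n) : Set (E n → E n) :=
  {f | DifferentiableOn ℂ f (ball 0 1) ∧ f 0 = 0 ∧ fderiv ℂ f 0 = ContinuousLinearMap.id ℂ _ ∧
    ∃ (h : ℝ → E n → E n) (v : E n → ℝ → E n), (∀ᵐ t : ℝ, 0 ≤ t → h t ∈ N A) ∧
      (∀ z ∈ ball (0 : E n) 1, AEStronglyMeasurable (fun t => h t z) (volume.restrict (Ici 0))) ∧
      (∀ z ∈ ball (0 : E n) 1, v z 0 = z ∧ (∀ t, 0 ≤ t → v z t ∈ ball (0 : E n) 1) ∧
        (∀ T, 0 ≤ T → AbsolutelyContinuousOnInterval (v z) 0 T) ∧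
        ∀ᵐ t : ℝ, 0 ≤ t → HasDerivAt (v z) (-h t (v z t)) t) ∧
      TendstoLocallyUniformlyOn (fun (t : ℝ) z => NormedSpace.exp ((t : ℂ) • A) (v z t)) f atTop
        (ball 0 1)}

/-- The homogeneous term of degree `m` of `f` at `z`: the `t ^ m` coefficient of `t ↦ f (t z)`. -/
noncomputable def P {n : ℕ} (f : E n → E n) (m : ℕ) (z : E n) : E n :=
  (m.factorial : ℂ)⁻¹ • iteratedDeriv m (fun t : ℂ => f (t • z)) 0

/-- The shearing constant `a_0`. -/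
noncomputable def a0 (κ μ : ℝ) : ℝ :=
  sSup {a | ∀ x y : ℝ, 0 ≤ x → 0 ≤ y → x ^ 2 + y ^ 2 ≤ 1 → 0 ≤ κ * x ^ 2 + μ * y ^ 2 - a * x * y ^ 2}

open Pool.Agent.H.MP_b9b9c0_an Topology

theorem result (n : ℕ) (A : E n →L[ℂ] E n) (b : OrthonormalBasis (Fin n) ℂ (E n)) (l : Fin n → ℂ)
    (hA : ∀ k, A (b k) = l k • b k) (i j : Fin n) (ij : i ≠ j) (hi : ∀ k, (l k).re ≤ (l i).re)
    (hj : ∀ k, (l j).re ≤ (l k).re) (h2 : (l i).re < 2 * (l j).re) :
    IsGreatest {x : ℝ | ∃ f ∈ S0 A, ∃ z : E n, ‖z‖ = 1 ∧ x = ‖P f 2 z‖}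
      (a0 (l i).re (l j).re / (2 * (l j).re - (l i).re)) := by
  have mk := hj i
  have μ0 : 0 < (l j).re := by linarith
  have σ0 := sub_pos.2 h2
  obtain ⟨he', hμ, hκ, ha⟩ := bas b hA ij (a := a0 (l i).re (l j).re) μ0 hi hj
  generalize hk : (l i).re = κ at *
  generalize hm : (l j).re = μ at *
  have κ0 : 0 < κ := by linarith
  obtain ⟨S, hS⟩ : ∃ S, S = {a : ℝ | ∀ x y : ℝ, 0 ≤ x → 0 ≤ y → x ^ 2 + y ^ 2 ≤ 1 →
    0 ≤ κ * x ^ 2 + μ * y ^ 2 - a * x * y ^ 2} := ⟨_, rfl⟩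
  have S0' : 0 ∈ S := hS ▸ fun x y _ _ _ => by simp; positivity
  have bS : BddAbove S := ⟨8 * (κ + μ), fun a h => by
    have := (hS ▸ h) (1 / 2) (1 / 2) (by norm_num) (by norm_num) (by norm_num); linarith⟩
  have a00 : 0 ≤ a0 κ μ := by rw [a0, ← hS]; exact le_csSup bS S0'
  have mem : ∀ a, (∀ x y : ℝ, 0 < x → 0 < y → x ^ 2 + y ^ 2 ≤ 1 →
      a ≤ (κ * x ^ 2 + μ * y ^ 2) / (x * y ^ 2)) → a ∈ S := fun a h => hS ▸ fun x y x0 y0 xy => by
    rcases x0.eq_or_lt with rfl | x0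
    · simp; positivity
    rcases y0.eq_or_lt with rfl | y0
    · simp; positivity
    linarith [(le_div_iff₀ (by positivity)).1 (h x y x0 y0 xy)]
  constructor
  · obtain ⟨h, v, hh, ch, hv⟩ := extr (hA i) he' (b.inner_eq_zero ij.symm) a00 (σ := 2 * μ - κ)
      (by rw [hk, hm]) σ0.ne' (fun z z0 => (mul_pos μ0 (pow_pos (norm_pos_iff.2 z0) 2)).trans_le (hμ z))
      (ha (hS.subset <| mem _ fun x y x0 y0 xy => by
        rw [a0, ← hS]
        refine csSup_le ⟨0, S0'⟩ fun a h => (le_div_iff₀ (by positivity)).2 ?_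
        linarith [(hS ▸ h) x y x0.le y0.le xy]))
    have sh := shear (b i) (b j) (a0 κ μ / (2 * μ - κ) : ℝ) (b.orthonormal.1 j)
      (ContinuousLinearMap.id ℂ _)
    have di : Differentiable ℂ fun z => inner ℂ (b j) z := (innerSL ℂ (b j)).differentiable
    refine ⟨fun z => z + ((a0 κ μ / (2 * μ - κ) : ℝ) * inner ℂ (b j) z ^ 2) • b i,
      ⟨by fun_prop, by simp, sh.1, h, v, .of_forall fun t _ => ⟨(hh t).1.differentiableOn, (hh t).2⟩,
        fun z _ => (ch z).aestronglyMeasurable, fun z hz => ⟨(hv z hz).2.1, (hv z hz).2.2.1,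
          fun T _ => (hv z hz).1.contDiffOn.absolutelyContinuousOnInterval,
          .of_forall fun t _ => (hv z hz).2.2.2.1 t⟩, TendstoUniformlyOn.tendstoLocallyUniformlyOn ?_⟩,
      b j, b.orthonormal.1 j, ?_⟩
    · refine tendstoUniformlyOn_iff.2 fun ε ε0 => ?_
      have : Tendsto (fun t : ℝ => a0 κ μ / (2 * μ - κ) * Real.exp (-((2 * μ - κ) * t))) atTop
          (𝓝 (_ * 0)) :=
        (Real.tendsto_exp_neg_atTop_nhds_zero.comp (tendsto_id.const_mul_atTop σ0)).const_mul _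
      filter_upwards [this.eventually (gt_mem_nhds (by simpa using ε0))] with t ht z hz
      refine lt_of_le_of_lt ?_ ht
      have e : NormedSpace.exp ((t : ℂ) • A) (v z t) = _ := (hv z hz).2.2.2.2 t
      have n := norm_inner_le_norm (𝕜 := ℂ) (b j) z
      rw [b.orthonormal.1, one_mul] at n
      rw [e, dist_add_left, dist_eq_norm, ← sub_smul, ← sub_mul, ← ofReal_sub, norm_smul, norm_mul,
        b.orthonormal.1, mul_one, norm_real, norm_pow, neg_mul, show a0 κ μ / (2 * μ - κ) - _ =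
        a0 κ μ / (2 * μ - κ) * Real.exp (-((2 * μ - κ) * t)) by ring, Real.norm_of_nonneg (by positivity)]
      exact mul_le_of_le_one_right (by positivity)
        (pow_le_one₀ (norm_nonneg _) (n.trans (mem_ball_zero_iff.1 hz).le))
    · rw [P, sh.2, norm_smul, b.orthonormal.1, mul_one, norm_real, Real.norm_of_nonneg (by positivity)]
  rintro _ ⟨f, ⟨fd, f0, fD, h, v, hh, -, hv, lim⟩, u, hu, rfl⟩
  rw [le_div_iff₀ σ0, a0, ← hS]
  refine le_csSup bS (mem _ fun x y x0 y0 xy => ?_)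
  have σ1 : μ * 2 - κ ≠ 0 := by linarith
  obtain ⟨R, hR⟩ : ∃ R, R = √(1 + (x / y) ^ 2) := ⟨_, rfl⟩
  have R0 : 0 < R := by rw [hR]; positivity
  have R2 : R ^ 2 = 1 + (x / y) ^ 2 := by rw [hR, Real.sq_sqrt (by positivity)]
  have Ry : R * y ≤ 1 := le_of_sq_le_sq (by rw [mul_pow, R2]; field_simp; linarith) zero_le_one
  have := up fd f0 fD (B := R * (μ + (x / y) ^ 2 * κ) / ((2 * μ - κ) * (x / y))) (by positivity)
    (fun δ δ0 => ?_) hu
  · refine (mul_le_mul_of_nonneg_right this σ0.le).trans (le_of_eq_of_le (b := R * y * ((κ * x ^ 2 +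
      μ * y ^ 2) / (x * y ^ 2))) (by field_simp; ring) (mul_le_of_le_one_left (by positivity) Ry))
  obtain ⟨ε, ε0, H⟩ := core' μ0 mk hμ hκ h2 (div_pos x0 y0) R0 R2
    (C := R * (μ + (x / y) ^ 2 * κ) / ((2 * μ - κ) * (x / y))) (by field_simp) le_rfl (zero_mul _) δ0
  refine ⟨ε, ε0, fun z hz zε w hw => ?_⟩
  obtain ⟨v0, vb, ac, ode⟩ := hv z hz
  refine le_of_tendsto ((continuous_re.tendsto _).comp (tendsto_const_nhds.inner (lim.tendsto_at hz)))
    ((eventually_ge_atTop 0).mono fun T hT => ?_)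
  have := H T hT h (v z) w (by simp) hw (ac T hT) (fun t ht => vb t ht.1) (by
    filter_upwards [hh, ode] with t h1 h2 ht
    obtain ⟨a, b, c, d⟩ := h1 ht.1
    refine ⟨h2 ht.1, a, b, c, fun z hz => ?_⟩
    rcases eq_or_ne z 0 with rfl | z0
    · simp
    · exact (d z hz z0).le) (v0.symm ▸ zε)
  rwa [v0, sub_zero, mul_one] at this

end Pool.Agent.Results.MP_b9b9c0_an.P2
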